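import Pool.Agent.H4.Grig.Final

/-!
# The geodesic growth rate of the first Grigorchuk group

For the standard generating set `S = {a, b, c, d}` of the first Grigorchuk group `G` (given by
Lysionok's presentation, `Pool.Agent.H4.Grig.G`) the number of geodesic words of length `n`,
raised to the power `1 / n`, tends to `√2`.
-/

namespace Pool.Agent.Results.MP_912e5d_al.SqrtTwo

open Pool.Agent.H4.Grig

/-- **Theorem.** The exponential growth rate of the language of geodesic words of the first
Grigorchuk group with respect to `{a, b, c, d}` is `√2`. -/
theorem result :
    Filter.Tendsto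
      (fun n : ℕ => ((geodesicWords ({a, b, c, d} : Set G) n).ncard : ℝ) ^ ((1 : ℝ) / n))
      Filter.atTop (nhds (Real.sqrt 2)) :=
  main

end Pool.Agent.Results.MP_912e5d_al.SqrtTwo
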